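import Pool.Agent.H.MP_de6bcb_lc.B
import Pool.Agent.Results.MP_7624cc_lc.Char
import Pool.Agent.Lib.helper13.KAPI

set_option autoImplicit false

namespace Pool.Agent.Results.MP_de6bcb_lc.Trivial

open Pool.Agent.Lib.helper21.PR Pool.Agent.H.MP_fa2eca_lc Pool.Agent.Results.MP_7624cc_lc.Char
open Pool.Agent.H.MP_7c40ec_lc (cx)

/-- every `D`-random set is `C`-random -/
def LR (C D : ℕ → Bool) : Prop := ∀ X, MLR D X → MLR C X

/-- K-trivial, numbers being coded as strings by `e` -/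
def KTriv (V : List Bool →. List Bool) (e : ℕ → List Bool) (A : ℕ → Bool) : Prop :=
  ∃ c, ∀ n, cx V (pre A n) ≤ cx V (e n) + c

theorem result (V : List Bool →. List Bool) (hV : Pool.Agent.Lib.KAPI.OptPF V)
    (e : ℕ → List Bool) (he : Computable e) (ie : Function.Injective e) (A B : ℕ → Bool)
    (h : LR (jn A B) B) (hB : MLR A B) : KTriv V e A :=
  Pool.Agent.H.MP_de6bcb_lc.main hV.pref.1 hV.pref.2 hV.pref.3 he ie
    (fun X a => mlr.1 (h X (mlr.2 a))) (mlr.1 hB)

end Pool.Agent.Results.MP_de6bcb_lc.Trivial
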